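import Pool.Agent.H21.G1.Tab

/-!
# Genus one: canonical cells (module CAN)
-/

open Finset

namespace Pool.Agent.H21.G1

open Pool.Agent.H95.G1 Pool.Agent.H95.TB Pool.Agent.H2.G1

lemma sim_tp {a : Fin 5} (b : Fin 5) {P : Fin 5 → ℝ} (hP : Sim P) (ha : P a = 0) : Sim (tp a b P) := by
  constructor
  · intro t
    refine Fin.succAboveCases b ?_ (fun s => ?_) t
    · rw [tp_same]
    · rw [tp_sa]; exact hP.1 _
  · rw [Fin.sum_univ_succAbove _ b, tp_same, zero_add]
    have := hP.2
    rw [Fin.sum_univ_succAbove _ a, ha, zero_add] at this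
    rw [← this]
    exact Finset.sum_congr rfl fun s _ => by rw [tp_sa]

lemma shD_w (e : ℤ) (d : ED) : (shD e d).w = d.w := rfl

lemma shD_shD (e e' : ℤ) (d : ED) : shD e (shD e' d) = shD (e' + e) d := by
  have h : (shD e' d).T + e * (shD e' d).w = d.T + ((e' + e : ℤ) : ℝ) * d.w := by
    rw [shD_w]
    unfold shD
    push_cast
    ring
  unfold shD at h ⊢
  simp only at h ⊢
  rw [h]

lemma shD_zero (d : ED) : shD 0 d = d := by
  unfold shD
  simp

/-- transport of a support -/
def ts (a b : Fin 5) (S : Fin 5 → Bool) : Fin 5 → Bool :=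
  b.insertNth (α := fun _ => Bool) false fun s => S (a.succAbove s)

/-- the support -/
def Supp (S : Fin 5 → Bool) (P : Fin 5 → ℝ) : Prop := ∀ s, S s = true ↔ 0 < P s

lemma supp_ts (a b : Fin 5) {S : Fin 5 → Bool} {P : Fin 5 → ℝ} (h : Supp S P) : Supp (ts a b S) (tp a b P) := by
  intro t
  refine Fin.succAboveCases b ?_ (fun s => ?_) t
  · rw [tp_same]
    unfold ts
    simp
  · rw [tp_sa]
    unfold ts
    rw [Fin.insertNth_apply_succAbove]
    exact h _

/-- the slot to be crossed -/
def mv (f : Fin 24) (S : Fin 5 → Bool) : Option (Fin 5) :=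
  if 1 ≤ lv f ∧ S (Fin.ofNat 5 (lv f - 1)) = false then some (Fin.ofNat 5 (lv f - 1))
  else if S (Fin.ofNat 5 (lv f)) = false ∧ ¬ (fst f = true ∧ ∀ s : Fin 5, 4 ≤ tb f s % 8 → S s = false) then
    some (Fin.ofNat 5 (lv f))
  else none

/-- the walk stops -/
def wk : ℕ → Fin 24 → (Fin 5 → Bool) → Bool
  | 0, _, _ => false
  | n + 1, f, S =>
    match mv f S with
    | none => true
    | some a => decide (kd f a = 0) && (!(S a)) && wk n (gc f a) (ts a (gs f a) S)

lemma lv_lt (f : Fin 24) : lv f < 5 := by revert f; decide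

lemma can_of_mv {f : Fin 24} {S : Fin 5 → Bool} {P : Fin 5 → ℝ} (hP : Sim P) (hS : Supp S P) (h : mv f S = none) :
    Can f P := by
  unfold mv at h
  split_ifs at h with h1 h2
  constructor
  · intro s hs
    rw [← hS s]
    by_contra h3
    apply h1
    refine ⟨by omega, ?_⟩
    have : Fin.ofNat 5 (lv f - 1) = s := by
      apply Fin.ext
      rw [Fin.ofNat_eq_cast, Fin.val_natCast, Nat.mod_eq_of_lt (by have := lv_lt f; omega)]
      omega
    rw [this]
    simpa using h3
  · by_cases h3 : S (Fin.ofNat 5 (lv f)) = false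
    · right
      have h4 : fst f = true ∧ ∀ s : Fin 5, 4 ≤ tb f s % 8 → S s = false := by
        by_contra h5
        exact h2 ⟨h3, h5⟩
      refine ⟨h4.1, fun s hs => ?_⟩
      have h5 := h4.2 s hs
      have h6 : ¬ (0 < P s) := by
        rw [← hS s, h5]
        decide
      exact le_antisymm (not_lt.1 h6) (hP.1 s)
    · left
      intro s hs
      rw [← hS s]
      have : Fin.ofNat 5 (lv f) = s := by
        apply Fin.ext
        rw [Fin.ofNat_eq_cast, Fin.val_natCast, Nat.mod_eq_of_lt (lv_lt f)]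
        exact hs.symm
      rw [this] at h3
      simpa using h3

lemma wk_all : ∀ f : Fin 24, ∀ S : Fin 5 → Bool, wk 10 f S = true := by decide +kernel

lemma can_wk (hT : TAB) : ∀ (n : ℕ) (f : Fin 24) (S : Fin 5 → Bool) (P : Fin 5 → ℝ), Sim P → Supp S P →
    wk n f S = true → ∃ g Q, Sim Q ∧ Can g Q ∧ ∃ e : ℤ, RM f P (-(e * (ed f P).p / 2)) g Q ∧
      ed g Q = shD e (ed f P) := by
  intro n
  induction n with
  | zero => intro f S P _ _ h; exact absurd h (by simp [wk])
  | succ n ih =>
    intro f S P hP hS h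
    cases hm : mv f S with
    | none =>
      refine ⟨f, P, hP, can_of_mv hP hS hm, 0, ⟨0, 0, Reach.refl f P, by simp⟩, ?_⟩
      rw [shD_zero]
    | some a =>
      simp only [wk, hm, Bool.and_eq_true, decide_eq_true_eq, Bool.not_eq_true'] at h
      obtain ⟨⟨h0, h1⟩, h2⟩ := h
      have ha : P a = 0 := by
        have h6 : ¬ (0 < P a) := by
          rw [← hS a, h1]
          decide
        exact le_antisymm (not_lt.1 h6) (hP.1 a)
      obtain ⟨-, hed, hth⟩ := hT f a P hP ha
      obtain ⟨g, Q, hQ, hc, e, ⟨s', m, hr, hs'⟩, hq⟩ := ih (gc f a) _ _ (sim_tp (gs f a) hP ha) (supp_ts a (gs f a) hS) h2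
      rw [h0] at hed hth
      have hk : kD 0 (ed f P) = ed f P := by unfold kD; simp
      have hka : ka 0 (ed f P) = 0 := by unfold ka; simp
      rw [hk] at hed
      rw [hka] at hth
      refine ⟨g, Q, hQ, hc, ep f a + e, ⟨th f a P + s', kn f a + m, Reach.step f P a ha _ _ _ hr, ?_⟩, ?_⟩
      · rw [hs', hth, hed]
        have hp : (shD (ep f a) (ed f P)).p = (ed f P).p := rfl
        rw [hp]
        push_cast
        ring
      · rw [hq, hed, shD_shD]

/-- CAN -/
theorem can (hT : TAB) : CAN := by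
  intro f P hP
  classical
  exact can_wk hT 10 f (fun s => decide (0 < P s)) P hP (fun s => by simp) (wk_all f _)

/-- CAN, unconditional -/
theorem can' : CAN := can tab

end Pool.Agent.H21.G1
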