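import Pool.Agent.H21.G1.Uni

/-!
# Genus one: letters of weight zero in canonical cells (module LET)
-/

open Finset

namespace Pool.Agent.H21.G1

open Pool.Agent.H95.G1 Pool.Agent.H95.TB Pool.Agent.H2.G1

lemma tab_let : ∀ f : Fin 24, ∀ k : Fin 4, k ≠ 0 → lb f (vS f) ≠ 4 + (kL k.1).1 → (kL k.1).1 + 1 ≠ lv f →
    ∃ a : Fin 5, (lb f a = (kL k.1).1 ∨ lb f a = 4 + (kL k.1).1) ∧ kd f a = k.1 := by decide +kernel

lemma tab_let' : ∀ f : Fin 24, ∀ k : Fin 4, k ≠ 0 → fst f = true → 1 ≤ lv f → (kL k.1).1 + 1 ≠ lv f →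
    lb f (vS f) ≠ 4 + (kL k.1).1 := by decide +kernel

lemma tab_cone : ∀ f : Fin 24, lv f = 0 → ∀ s : Fin 5, lb f s = 3 ∨ 4 ≤ lb f s := by decide +kernel

/-- LET -/
theorem let_ : LET := by
  intro f P hP hc hp k k1 k3 hok
  obtain ⟨h1, h2⟩ := hok (by omega)
  have hk : ∀ s, lb f s = (kL k).1 → P s = 0 := by
    intro s hs
    have h3 := lab_ge f hP s
    rw [hs] at h3
    rw [ed_al] at h1
    have h4 : lab f P (kL k).1 = 0 := h1
    rw [h4] at h3
    exact le_antisymm h3 (hP.1 s)
  have hk' : ∀ s, lb f s = 4 + (kL k).1 → P s = 0 := by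
    intro s hs
    have h3 := lab_ge f hP s
    rw [hs] at h3
    rw [ed_be] at h2
    have h4 : lab f P (4 + (kL k).1) = 0 := h2
    rw [h4] at h3
    exact le_antisymm h3 (hP.1 s)
  have c1 : (kL k).1 + 1 ≠ lv f := by
    intro h
    have h3 := lv_of_can hP hc (by omega)
    rw [← h, Nat.add_sub_cancel] at h3
    rw [ed_al] at h1
    have h4 : lab f P (kL k).1 = 0 := h1
    rw [h4] at h3
    exact lt_irrefl _ h3
  have c2 : lb f (vS f) ≠ 4 + (kL k).1 := by
    rcases hc.2 with h | ⟨h, h'⟩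
    · intro h3
      have h4 := h (vS f) (uv_lb f).2.2.2
      rw [hk' _ h3] at h4
      exact lt_irrefl _ h4
    · have hlv : 1 ≤ lv f := by
        by_contra h3
        have h4 : lv f = 0 := by omega
        have h5 : (ed f P).p = 1 := by
          rw [ed_p, ← hP.2]
          refine Finset.sum_congr rfl fun s _ => ?_
          rcases tab_cone f h4 s with h6 | h6
          · rw [h6]; simp [ind]
          · have : P s = 0 := h' s h6
            rw [this, mul_zero]
        linarith
      exact tab_let' f ⟨k, by omega⟩ (by intro h3; have := congrArg Fin.val h3; simp at this; omega) h hlv c1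
  obtain ⟨a, ha, hka⟩ := tab_let f ⟨k, by omega⟩ (by intro h3; have := congrArg Fin.val h3; simp at this; omega) c2 c1
  refine ⟨a, ?_, hka⟩
  rcases ha with ha | ha
  · exact hk a ha
  · exact hk' a ha

end Pool.Agent.H21.G1
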