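import Pool.Agent.H2.G1.Stmts

/-!
# Genus one: the table of the gluings (module TAB)
-/

open Finset

namespace Pool.Agent.H21.G1

open Pool.Agent.H95.G1 Pool.Agent.H95.TB Pool.Agent.H2.G1

section lin

variable {P : Fin 5 → ℝ} {a : Fin 5} (b : Fin 5)

lemma sum_face (ha : P a = 0) (c : Fin 5 → ℝ) :
    ∑ s, c s * P s = ∑ s : Fin 4, c (a.succAbove s) * P (a.succAbove s) := by
  rw [Fin.sum_univ_succAbove _ a, ha, mul_zero, zero_add]

lemma tp_same (a b : Fin 5) (P : Fin 5 → ℝ) : tp a b P b = 0 := by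
  unfold tp; simp

lemma tp_sa (a b : Fin 5) (P : Fin 5 → ℝ) (s : Fin 4) : tp a b P (b.succAbove s) = P (a.succAbove s) := by
  unfold tp; simp

lemma sum_tp (c : Fin 5 → ℝ) :
    ∑ s, c s * tp a b P s = ∑ s : Fin 4, c (b.succAbove s) * P (a.succAbove s) := by
  rw [Fin.sum_univ_succAbove _ b, tp_same, mul_zero, zero_add]
  exact Finset.sum_congr rfl fun s _ => by rw [tp_sa]

end lin

/-- the label of a slot -/
def lb (f : Fin 24) (s : Fin 5) : ℕ := tb f s % 8
/-- the coefficient of the position -/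
def co (f : Fin 24) (s : Fin 5) : ℕ := tb f s / 8

/-- indicator -/
def ind (l m : ℕ) : ℤ := if l = m then 1 else 0

lemma ed_al (f : Fin 24) (P : Fin 5 → ℝ) (y : Fin 3) : (ed f P).al y = ∑ s, ((ind (lb f s) y.1 : ℤ) : ℝ) * P s := by
  change (∑ s, if tb f s % 8 = y.1 then P s else 0) = _
  refine Finset.sum_congr rfl fun s _ => ?_
  unfold ind lb
  split_ifs <;> simp

lemma ed_be (f : Fin 24) (P : Fin 5 → ℝ) (y : Fin 3) :
    (ed f P).be y = ∑ s, ((ind (lb f s) (4 + y.1) : ℤ) : ℝ) * P s := by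
  change (∑ s, if tb f s % 8 = 4 + y.1 then P s else 0) = _
  refine Finset.sum_congr rfl fun s _ => ?_
  unfold ind lb
  split_ifs <;> simp

lemma ed_p (f : Fin 24) (P : Fin 5 → ℝ) : (ed f P).p = ∑ s, ((ind (lb f s) 3 : ℤ) : ℝ) * P s := by
  change (∑ s, if tb f s % 8 = 3 then P s else 0) = _
  refine Finset.sum_congr rfl fun s _ => ?_
  unfold ind lb
  split_ifs <;> simp

lemma ed_T (f : Fin 24) (P : Fin 5 → ℝ) : (ed f P).T = ∑ s, (((co f s : ℕ) : ℤ) : ℝ) * P s := by
  change (∑ s, ((tb f s / 8 : ℕ) : ℝ) * P s) = _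
  refine Finset.sum_congr rfl fun s _ => ?_
  unfold co
  push_cast
  rfl

/-- multiplicities as integers -/
def nvZ (b : Bool) (l : ℕ) : ℤ :=
  (if b = true then 3 else 2) * ind l 4 + ind l 5 + ind l 6

lemma ed_w (f : Fin 24) (P : Fin 5 → ℝ) : (ed f P).w = ∑ s, ((nvZ (decide (f.1 < 13)) (lb f s) : ℤ) : ℝ) * P s := by
  unfold ED.w
  rw [Fin.sum_univ_three, ed_be, ed_be, ed_be]
  rw [Finset.mul_sum, Finset.mul_sum, Finset.mul_sum, ← Finset.sum_add_distrib, ← Finset.sum_add_distrib]
  refine Finset.sum_congr rfl fun s _ => ?_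
  have hb : (ed f P).b = decide (f.1 < 13) := rfl
  unfold nv nvZ
  rw [hb]
  by_cases h : f.1 < 13 <;> simp [h] <;> ring

/-- exchange of the letters 1 and 2 -/
def sg (k : ℕ) (y : Fin 3) : Fin 3 := if k ≤ 1 then y else if y = 1 then 2 else if y = 2 then 1 else y

lemma tab_lab : ∀ f : Fin 24, ∀ a : Fin 5, ∀ s : Fin 4, ∀ y : Fin 3,
    ind (lb (gc f a) ((gs f a).succAbove s)) y.1 = ind (lb f (a.succAbove s)) (sg (kd f a) y).1 := by
  decide +kernel

lemma tab_lab' : ∀ f : Fin 24, ∀ a : Fin 5, ∀ s : Fin 4, ∀ y : Fin 3,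
    ind (lb (gc f a) ((gs f a).succAbove s)) (4 + y.1) = ind (lb f (a.succAbove s)) (4 + (sg (kd f a) y).1) := by
  decide +kernel

lemma tab_p : ∀ f : Fin 24, ∀ a : Fin 5, ∀ s : Fin 4,
    ind (lb (gc f a) ((gs f a).succAbove s)) 3 = ind (lb f (a.succAbove s)) 3 := by
  decide +kernel

/-- change of the position -/
def dT (k : ℕ) : ℤ := if k = 2 then 1 else if k = 3 then -1 else 0

lemma tab_T : ∀ f : Fin 24, ∀ a : Fin 5, ∀ s : Fin 4,
    ((co (gc f a) ((gs f a).succAbove s) : ℕ) : ℤ) = ((co f (a.succAbove s) : ℕ) : ℤ)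
      + dT (kd f a) * ind (lb f (a.succAbove s)) 4
      + ep f a * nvZ (decide ((gc f a).1 < 13)) (lb (gc f a) ((gs f a).succAbove s)) := by
  decide +kernel

lemma tab_ok : ∀ f : Fin 24, ∀ a : Fin 5, ∀ s : Fin 4, kd f a ≠ 0 →
    ind (lb f (a.succAbove s)) (kL (kd f a)).1 = 0 ∧ ind (lb f (a.succAbove s)) (4 + (kL (kd f a)).1) = 0 := by
  decide +kernel

lemma tab_b : ∀ f : Fin 24, ∀ a : Fin 5,
    decide ((gc f a).1 < 13) = (if kd f a = 1 then !(decide (f.1 < 13)) else decide (f.1 < 13)) := by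
  decide +kernel

/-- the angle, times 12 -/
def kaZ (k : ℕ) (b : Bool) (l : ℕ) : ℤ :=
  (if k = 2 then 1 else if k = 3 then -1 else 0) * ((if b = true then 8 else 9) * (ind l 0 + ind l 4) + 6 * ind l 3)

lemma tab_th : ∀ f : Fin 24, ∀ a : Fin 5, ∀ s : Fin 4,
    12 * (((pfx f a).count ((gs f a).succAbove s) : ℕ) : ℤ) = (((wd (gc f a)).count ((gs f a).succAbove s) : ℕ) : ℤ) *
      (kaZ (kd f a) (decide (f.1 < 13)) (lb f (a.succAbove s)) - 6 * ep f a * ind (lb f (a.succAbove s)) 3
        + 12 * kn f a) := by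
  decide +kernel

lemma tab_n : ∀ f : Fin 24, ∀ s : Fin 5, 0 < (wd f).count s := by decide +kernel

lemma tab_kd : ∀ f : Fin 24, ∀ a : Fin 5, kd f a ≤ 3 := by decide +kernel

section step

variable (f : Fin 24) (a : Fin 5) (P : Fin 5 → ℝ)

lemma st_al (ha : P a = 0) (y : Fin 3) :
    (ed (gc f a) (tp a (gs f a) P)).al y = (ed f P).al (sg (kd f a) y) := by
  rw [ed_al, ed_al, sum_tp, sum_face ha]
  exact Finset.sum_congr rfl fun s _ => by rw [tab_lab]

lemma st_be (ha : P a = 0) (y : Fin 3) :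
    (ed (gc f a) (tp a (gs f a) P)).be y = (ed f P).be (sg (kd f a) y) := by
  rw [ed_be, ed_be, sum_tp, sum_face ha]
  exact Finset.sum_congr rfl fun s _ => by rw [tab_lab']

lemma st_p (ha : P a = 0) : (ed (gc f a) (tp a (gs f a) P)).p = (ed f P).p := by
  rw [ed_p, ed_p, sum_tp, sum_face ha]
  exact Finset.sum_congr rfl fun s _ => by rw [tab_p]

lemma st_T (ha : P a = 0) : (ed (gc f a) (tp a (gs f a) P)).T =
    (ed f P).T + dT (kd f a) * (ed f P).be 0 + ep f a * (ed (gc f a) (tp a (gs f a) P)).w := by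
  rw [ed_T, ed_T, ed_be, ed_w, sum_tp, sum_tp, sum_face ha, sum_face ha, Finset.mul_sum, Finset.mul_sum,
    ← Finset.sum_add_distrib, ← Finset.sum_add_distrib]
  refine Finset.sum_congr rfl fun s _ => ?_
  have h := congrArg (fun z : ℤ => (z : ℝ)) (tab_T f a s)
  beta_reduce at h
  rw [h]
  push_cast
  simp only [Fin.val_zero, add_zero]
  ring

lemma st_ok (ha : P a = 0) : kOK (kd f a) (ed f P) := by
  intro h
  constructor
  · rw [ed_al, sum_face ha]
    exact Finset.sum_eq_zero fun s _ => by rw [(tab_ok f a s h).1]; simp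
  · rw [ed_be, sum_face ha]
    exact Finset.sum_eq_zero fun s _ => by rw [(tab_ok f a s h).2]; simp

lemma th_sum : th f a P = ∑ s : Fin 4, (((pfx f a).count ((gs f a).succAbove s) : ℕ) : ℝ) *
    (P (a.succAbove s) / ((wd (gc f a)).count ((gs f a).succAbove s) : ℝ)) := by
  unfold th
  rw [Finset.sum_list_map_count]
  have h : ∑ m ∈ (pfx f a).toFinset, (pfx f a).count m • (tp a (gs f a) P m / ((wd (gc f a)).count m : ℝ)) =
      ∑ m, (pfx f a).count m • (tp a (gs f a) P m / ((wd (gc f a)).count m : ℝ)) := by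
    refine Finset.sum_subset (Finset.subset_univ _) fun m _ hm => ?_
    rw [List.mem_toFinset] at hm
    rw [List.count_eq_zero_of_not_mem hm, zero_smul]
  rw [h, Fin.sum_univ_succAbove _ (gs f a), tp_same, zero_div, smul_zero, zero_add]
  exact Finset.sum_congr rfl fun s _ => by rw [tp_sa, nsmul_eq_mul]

lemma st_th (hP : Sim P) (ha : P a = 0) : th f a P = ka (kd f a) (ed f P) - ep f a * (ed f P).p / 2 + kn f a := by
  have hs : ∑ s : Fin 4, P (a.succAbove s) = 1 := by
    have := hP.2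
    rw [Fin.sum_univ_succAbove _ a, ha, zero_add] at this
    exact this
  have h1 : 12 * th f a P = ∑ s : Fin 4, ((kaZ (kd f a) (decide (f.1 < 13)) (lb f (a.succAbove s))
      - 6 * ep f a * ind (lb f (a.succAbove s)) 3 + 12 * kn f a : ℤ) : ℝ) * P (a.succAbove s) := by
    rw [th_sum, Finset.mul_sum]
    refine Finset.sum_congr rfl fun s _ => ?_
    have h := congrArg (fun z : ℤ => (z : ℝ)) (tab_th f a s)
    simp only [Int.cast_mul] at h
    have hn : ((wd (gc f a)).count ((gs f a).succAbove s) : ℝ) ≠ 0 := by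
      have := tab_n (gc f a) ((gs f a).succAbove s)
      positivity
    have h2 : (((((pfx f a).count ((gs f a).succAbove s) : ℕ) : ℤ)) : ℝ) =
      (((pfx f a).count ((gs f a).succAbove s) : ℕ) : ℝ) := by push_cast; rfl
    have h3 : (((((wd (gc f a)).count ((gs f a).succAbove s) : ℕ) : ℤ)) : ℝ) =
      (((wd (gc f a)).count ((gs f a).succAbove s) : ℕ) : ℝ) := by push_cast; rfl
    rw [h2, h3] at h
    rw [mul_div_assoc', mul_div_assoc', div_eq_iff hn]
    push_cast at h ⊢
    linear_combination (P (a.succAbove s)) * h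
  have h2 : 12 * (ka (kd f a) (ed f P) - ep f a * (ed f P).p / 2 + kn f a) =
      ∑ s : Fin 4, ((kaZ (kd f a) (decide (f.1 < 13)) (lb f (a.succAbove s))
      - 6 * ep f a * ind (lb f (a.succAbove s)) 3 + 12 * kn f a : ℤ) : ℝ) * P (a.succAbove s) := by
    have h3 : ∑ s : Fin 4, ((kaZ (kd f a) (decide (f.1 < 13)) (lb f (a.succAbove s))
      - 6 * ep f a * ind (lb f (a.succAbove s)) 3 + 12 * kn f a : ℤ) : ℝ) * P (a.succAbove s) =
      ∑ s : Fin 4, ((kaZ (kd f a) (decide (f.1 < 13)) (lb f (a.succAbove s)) : ℤ) : ℝ) * P (a.succAbove s)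
      - 6 * ep f a * ∑ s : Fin 4, ((ind (lb f (a.succAbove s)) 3 : ℤ) : ℝ) * P (a.succAbove s)
      + 12 * kn f a * ∑ s : Fin 4, P (a.succAbove s) := by
      rw [Finset.mul_sum, Finset.mul_sum, ← Finset.sum_sub_distrib, ← Finset.sum_add_distrib]
      refine Finset.sum_congr rfl fun s _ => ?_
      push_cast
      ring
    rw [h3, hs, ← sum_face ha (fun s => ((ind (lb f s) 3 : ℤ) : ℝ)), ← ed_p]
    have h4 : ∑ s : Fin 4, ((kaZ (kd f a) (decide (f.1 < 13)) (lb f (a.succAbove s)) : ℤ) : ℝ) * P (a.succAbove s) =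
      (if kd f a = 2 then 1 else if kd f a = 3 then -1 else 0) *
      ((if (ed f P).b = true then 8 else 9) * ((ed f P).al 0 + (ed f P).be 0) + 6 * (ed f P).p) := by
      rw [ed_al, ed_be, ed_p, sum_face ha, sum_face ha, sum_face ha, ← Finset.sum_add_distrib, Finset.mul_sum,
        Finset.mul_sum, ← Finset.sum_add_distrib, Finset.mul_sum]
      refine Finset.sum_congr rfl fun s _ => ?_
      unfold kaZ
      push_cast
      have hb : (ed f P).b = decide (f.1 < 13) := rfl
      rw [hb]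
      simp only [Fin.val_zero, add_zero]
      ring
    rw [h4]
    unfold ka ED.c
    have hk := tab_kd f a
    interval_cases kd f a <;> (try simp only [if_true, if_false]) <;> (try norm_num) <;> (try split_ifs) <;> ring
  linarith

end step

/-- TAB -/
theorem tab : TAB := by
  intro f a P hP ha
  refine ⟨st_ok f a P ha, ?_, st_th f a P hP ha⟩
  have hok := st_ok f a P ha
  have hb := tab_b f a
  have hal := st_al f a P ha
  have hbe := st_be f a P ha
  have hp := st_p f a P ha
  have hT := st_T f a P ha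
  set d := ed f P with hd
  set d' := ed (gc f a) (tp a (gs f a) P) with hd'
  have hb' : d'.b = (if kd f a = 1 then !d.b else d.b) := hb
  have hk := tab_kd f a
  have hbeq : d'.b = (kD (kd f a) d).b := by
    rw [hb']
    unfold kD swD rtD rpD
    interval_cases kd f a <;> simp
  have haleq : d'.al = (kD (kd f a) d).al := by
    funext y
    rw [hal]
    unfold kD swD rtD rpD sg
    have := hok
    unfold kOK kL at this
    interval_cases kd f a
    · simp
    · simp
    · have h2 := (this (by decide)).1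
      fin_cases y <;> simp at h2 ⊢ <;> first | rfl | exact h2
    · have h2 := (this (by decide)).1
      fin_cases y <;> simp at h2 ⊢ <;> first | rfl | exact h2
  have hbeeq : d'.be = (kD (kd f a) d).be := by
    funext y
    rw [hbe]
    unfold kD swD rtD rpD sg
    have := hok
    unfold kOK kL at this
    interval_cases kd f a
    · simp
    · simp
    · have h2 := (this (by decide)).2
      fin_cases y <;> simp at h2 ⊢ <;> first | rfl | exact h2
    · have h2 := (this (by decide)).2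
      fin_cases y <;> simp at h2 ⊢ <;> first | rfl | exact h2
  have hpeq : d'.p = (kD (kd f a) d).p := by
    rw [hp]
    unfold kD swD rtD rpD
    interval_cases kd f a <;> simp
  have hweq : d'.w = (kD (kd f a) d).w := by
    unfold ED.w
    rw [hbeq, hbeeq]
  have hTeq : d'.T = (kD (kd f a) d).T + ep f a * (kD (kd f a) d).w := by
    rw [hT, hweq]
    congr 1
    unfold kD swD rtD rpD dT
    interval_cases kd f a <;> simp
    ring
  unfold shD
  cases h : d' with
  | mk b al be p T =>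
    rw [h] at hbeq haleq hbeeq hpeq hTeq
    simp only at hbeq haleq hbeeq hpeq hTeq
    rw [hbeq, haleq, hbeeq, hpeq, hTeq]

end Pool.Agent.H21.G1
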