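import Pool.Agent.H21.G1.Can

/-!
# Genus one: uniqueness of canonical points (module UNI)
-/

open Finset

namespace Pool.Agent.H21.G1

open Pool.Agent.H95.G1 Pool.Agent.H95.TB Pool.Agent.H2.G1

/-- second copy of the letter of the window -/
def vS (f : Fin 24) : Fin 5 := Fin.ofNat 5 (lv f)

/-- first copy of the letter of the window -/
def uS (f : Fin 24) : Fin 5 :=
  ((List.finRange 5).find? fun s => decide (s ≠ vS f ∧ lb f s = lb f (vS f))).getD 0

/-- coefficients of the start of the window letter -/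
def LL (f : Fin 24) (l : ℕ) : ℤ :=
  ((List.finRange 5).map fun s => if s ≠ uS f ∧ lb f s = l then ((co f s : ℕ) : ℤ) else 0).sum

/-- coefficients of the end of the window letter -/
def HH (f : Fin 24) (l : ℕ) : ℤ := LL f l + ind l (lb f (vS f))

/-- sum of the weights of a label -/
noncomputable def lab (f : Fin 24) (P : Fin 5 → ℝ) (l : ℕ) : ℝ := ∑ s, ((ind (lb f s) l : ℤ) : ℝ) * P s

lemma uv_lb : ∀ f : Fin 24, uS f ≠ vS f ∧ lb f (uS f) = lb f (vS f) ∧ 4 ≤ lb f (vS f) ∧ (vS f).1 = lv f := by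
  decide +kernel

lemma lb_lt : ∀ f : Fin 24, ∀ s : Fin 5, lb f s < 7 := by decide +kernel

lemma tab_LL : ∀ f : Fin 24, ∀ s : Fin 5, ((co f s : ℕ) : ℤ) = (if s = uS f then 1 else 0)
    + LL f 4 * ind (lb f s) 4 + LL f 5 * ind (lb f s) 5 + LL f 6 * ind (lb f s) 6 := by decide +kernel

lemma tab_HH : ∀ f : Fin 24, ∀ s : Fin 5, ((co f s : ℕ) : ℤ) + (if s = vS f then 1 else 0) =
    HH f 4 * ind (lb f s) 4 + HH f 5 * ind (lb f s) 5 + HH f 6 * ind (lb f s) 6 := by decide +kernel

lemma tab_lt : ∀ f g : Fin 24, f < g → lv f = lv g → decide (f.1 < 13) = decide (g.1 < 13) →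
    HH f 4 ≤ LL g 4 ∧ HH f 5 ≤ LL g 5 ∧ HH f 6 ≤ LL g 6 := by decide +kernel

lemma tab_fst : ∀ f g : Fin 24, fst f = true → fst g = true → lv f = lv g →
    decide (f.1 < 13) = decide (g.1 < 13) → f = g := by decide +kernel

lemma tab_HHw : ∀ f : Fin 24, HH f 4 ≤ nvZ (decide (f.1 < 13)) 4 ∧ HH f 5 ≤ nvZ (decide (f.1 < 13)) 5 ∧
    HH f 6 ≤ nvZ (decide (f.1 < 13)) 6 := by decide +kernel

lemma tab_uni : ∀ f : Fin 24, ∀ s s' : Fin 5, s ≠ uS f → s ≠ vS f → lb f s' = lb f s → s' = s := by decide +kernel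

lemma tab_lv : ∀ f : Fin 24, ∀ s : Fin 5, ∀ y : Fin 3, lv f ≤ y.1 → lb f s ≠ y.1 := by decide +kernel

lemma tab_lv' : ∀ f : Fin 24, ∀ s : Fin 5, s.1 + 1 = lv f → lb f s = s.1 := by decide +kernel

lemma lv_le : ∀ f : Fin 24, lv f ≤ 3 := by decide +kernel

lemma T_lo (f : Fin 24) (P : Fin 5 → ℝ) :
    (ed f P).T = P (uS f) + (LL f 4 * lab f P 4 + LL f 5 * lab f P 5 + LL f 6 * lab f P 6) := by
  have h1 : P (uS f) = ∑ s, (if s = uS f then (1 : ℝ) else 0) * P s := by simp
  rw [ed_T, h1]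
  unfold lab
  rw [Finset.mul_sum, Finset.mul_sum, Finset.mul_sum, ← Finset.sum_add_distrib, ← Finset.sum_add_distrib,
    ← Finset.sum_add_distrib]
  refine Finset.sum_congr rfl fun s _ => ?_
  have h := congrArg (fun z : ℤ => (z : ℝ)) (tab_LL f s)
  beta_reduce at h
  rw [h]
  push_cast
  ring

lemma T_hi (f : Fin 24) (P : Fin 5 → ℝ) :
    (ed f P).T + P (vS f) = HH f 4 * lab f P 4 + HH f 5 * lab f P 5 + HH f 6 * lab f P 6 := by
  have h1 : P (vS f) = ∑ s, (if s = vS f then (1 : ℝ) else 0) * P s := by simp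
  rw [ed_T, h1]
  unfold lab
  rw [Finset.mul_sum, Finset.mul_sum, Finset.mul_sum, ← Finset.sum_add_distrib, ← Finset.sum_add_distrib,
    ← Finset.sum_add_distrib]
  refine Finset.sum_congr rfl fun s _ => ?_
  have h := congrArg (fun z : ℤ => (z : ℝ)) (tab_HH f s)
  beta_reduce at h
  push_cast at h
  linear_combination (P s) * h

lemma lab_nonneg (f : Fin 24) {P : Fin 5 → ℝ} (hP : Sim P) (l : ℕ) : 0 ≤ lab f P l := by
  refine Finset.sum_nonneg fun s _ => mul_nonneg ?_ (hP.1 s)
  unfold ind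
  split_ifs <;> simp

lemma lab_ge (f : Fin 24) {P : Fin 5 → ℝ} (hP : Sim P) (s : Fin 5) : P s ≤ lab f P (lb f s) := by
  have h : ((ind (lb f s) (lb f s) : ℤ) : ℝ) * P s ≤ lab f P (lb f s) := by
    refine Finset.single_le_sum (f := fun s' => ((ind (lb f s') (lb f s) : ℤ) : ℝ) * P s') (fun s' _ => ?_)
      (Finset.mem_univ s)
    refine mul_nonneg ?_ (hP.1 s')
    unfold ind
    split_ifs <;> simp
  have h1 : ((ind (lb f s) (lb f s) : ℤ) : ℝ) = 1 := by unfold ind; simp
  rwa [h1, one_mul] at h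

lemma w_lab (f : Fin 24) (P : Fin 5 → ℝ) : (ed f P).w = nvZ (decide (f.1 < 13)) 4 * lab f P 4
    + nvZ (decide (f.1 < 13)) 5 * lab f P 5 + nvZ (decide (f.1 < 13)) 6 * lab f P 6 := by
  rw [ed_w]
  unfold lab
  rw [Finset.mul_sum, Finset.mul_sum, Finset.mul_sum, ← Finset.sum_add_distrib, ← Finset.sum_add_distrib]
  refine Finset.sum_congr rfl fun s _ => ?_
  unfold nvZ
  by_cases h4 : lb f s = 4
  · rw [h4]; simp [ind]
  · by_cases h5 : lb f s = 5
    · rw [h5]; simp [ind]
    · by_cases h6 : lb f s = 6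
      · rw [h6]; simp [ind]
      · simp [ind, h4, h5, h6]

lemma lab_eq {f g : Fin 24} {P Q : Fin 5 → ℝ} (hal : (ed g Q).al = (ed f P).al) (hbe : (ed g Q).be = (ed f P).be)
    (hp : (ed g Q).p = (ed f P).p) : ∀ l < 7, lab g Q l = lab f P l := by
  have ha : ∀ y : Fin 3, lab g Q y.1 = lab f P y.1 := fun y => by
    have := congrFun hal y
    rwa [ed_al, ed_al] at this
  have hb : ∀ y : Fin 3, lab g Q (4 + y.1) = lab f P (4 + y.1) := fun y => by
    have := congrFun hbe y
    rwa [ed_be, ed_be] at this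
  intro l hl
  interval_cases l
  · exact ha 0
  · exact ha 1
  · exact ha 2
  · rw [ed_p, ed_p] at hp; exact hp
  · exact hb 0
  · exact hb 1
  · exact hb 2

/-- the data determine the point of a cell -/
lemma ed_inj {f : Fin 24} {P Q : Fin 5 → ℝ} (h : ed f Q = ed f P) : P = Q := by
  have hl : ∀ l < 7, lab f Q l = lab f P l := lab_eq (by rw [h]) (by rw [h]) (by rw [h])
  have hu : P (uS f) = Q (uS f) := by
    have h1 := T_lo f P
    have h2 := T_lo f Q
    rw [h, hl 4 (by omega), hl 5 (by omega), hl 6 (by omega)] at h2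
    linarith
  have hv : P (vS f) = Q (vS f) := by
    have h1 := T_hi f P
    have h2 := T_hi f Q
    rw [h, hl 4 (by omega), hl 5 (by omega), hl 6 (by omega)] at h2
    linarith
  funext s
  by_cases h1 : s = uS f
  · rw [h1, hu]
  · by_cases h2 : s = vS f
    · rw [h2, hv]
    · have h3 : ∀ R : Fin 5 → ℝ, lab f R (lb f s) = R s := by
        intro R
        unfold lab
        rw [Finset.sum_eq_single s]
        · unfold ind; simp
        · intro s' _ hs'
          have : lb f s' ≠ lb f s := fun h4 => hs' (tab_uni f s s' h1 h2 h4)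
          unfold ind; simp [this]
        · intro h4; exact absurd (Finset.mem_univ s) h4
      rw [← h3 P, ← h3 Q, hl _ (lb_lt f s)]

lemma lv_of_can {f : Fin 24} {P : Fin 5 → ℝ} (hP : Sim P) (hc : Can f P) (h : 1 ≤ lv f) :
    0 < lab f P (lv f - 1) := by
  have h3 := lv_le f
  have h1 := hc.1 ⟨lv f - 1, by omega⟩ (by simp; omega)
  have h2 := tab_lv' f ⟨lv f - 1, by omega⟩ (by simp; omega)
  have h4 := lab_ge f hP ⟨lv f - 1, by omega⟩
  rw [h2] at h4
  exact lt_of_lt_of_le h1 h4

lemma lab_zero {f : Fin 24} (P : Fin 5 → ℝ) {l : ℕ} (hl : l < 3) (h : lv f ≤ l) : lab f P l = 0 := by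
  refine Finset.sum_eq_zero fun s _ => ?_
  have := tab_lv f s ⟨l, hl⟩ h
  simp only at this
  unfold ind
  simp [this]

lemma lv_eq {f g : Fin 24} {P Q : Fin 5 → ℝ} (hP : Sim P) (hQ : Sim Q) (hf : Can f P) (hg : Can g Q)
    (hl : ∀ l < 7, lab g Q l = lab f P l) : lv f = lv g := by
  rcases lt_trichotomy (lv f) (lv g) with h | h | h
  · exfalso
    have h1 := lv_of_can hQ hg (by omega)
    have h2 := lv_le g
    rw [hl _ (by omega), lab_zero P (by omega) (by omega)] at h1
    exact lt_irrefl _ h1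
  · exact h
  · exfalso
    have h1 := lv_of_can hP hf (by omega)
    have h2 := lv_le f
    rw [← hl _ (by omega), lab_zero Q (by omega) (by omega)] at h1
    exact lt_irrefl _ h1

lemma can_w {f : Fin 24} {P : Fin 5 → ℝ} (hP : Sim P) (hc : Can f P) :
    (0 < P (vS f) ∧ 0 < (ed f P).w) ∨ (fst f = true ∧ (ed f P).w = 0) := by
  obtain ⟨h0, h1, h2, h3⟩ := uv_lb f
  have hn : ∀ l, 4 ≤ l → l < 7 → 0 < nvZ (decide (f.1 < 13)) l := by
    intro l h4 h5
    unfold nvZ ind
    interval_cases l <;> by_cases h : f.1 < 13 <;> simp [h]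
  rcases hc.2 with h | ⟨h, h'⟩
  · left
    have h4 := h (vS f) h3
    refine ⟨h4, ?_⟩
    have h5 := lab_ge f hP (vS f)
    have h6 : 0 < lab f P (lb f (vS f)) := lt_of_lt_of_le h4 h5
    rw [w_lab]
    have a4 := lab_nonneg f hP 4
    have a5 := lab_nonneg f hP 5
    have a6 := lab_nonneg f hP 6
    have n4 : (0 : ℝ) < nvZ (decide (f.1 < 13)) 4 := by exact_mod_cast hn 4 (by omega) (by omega)
    have n5 : (0 : ℝ) < nvZ (decide (f.1 < 13)) 5 := by exact_mod_cast hn 5 (by omega) (by omega)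
    have n6 : (0 : ℝ) < nvZ (decide (f.1 < 13)) 6 := by exact_mod_cast hn 6 (by omega) (by omega)
    have h7 := lb_lt f (vS f)
    have h8 : lb f (vS f) = 4 ∨ lb f (vS f) = 5 ∨ lb f (vS f) = 6 := by omega
    rcases h8 with h8 | h8 | h8 <;> rw [h8] at h6
    · have := mul_pos n4 h6
      have := mul_nonneg n5.le a5
      have := mul_nonneg n6.le a6
      linarith
    · have := mul_pos n5 h6
      have := mul_nonneg n4.le a4
      have := mul_nonneg n6.le a6
      linarith
    · have := mul_pos n6 h6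
      have := mul_nonneg n4.le a4
      have := mul_nonneg n5.le a5
      linarith
  · right
    refine ⟨h, ?_⟩
    have hz : ∀ l, 4 ≤ l → lab f P l = 0 := by
      intro l hl
      refine Finset.sum_eq_zero fun s _ => ?_
      by_cases h9 : lb f s = l
      · have : P s = 0 := h' s (by unfold lb at h9; omega)
        rw [this, mul_zero]
      · unfold ind; simp [h9]
    rw [w_lab, hz 4 (by omega), hz 5 (by omega), hz 6 (by omega)]
    ring

/-- UNI -/
theorem uni : UNI := by
  intro f P g Q hP hQ hf hg e he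
  have hb : decide (f.1 < 13) = decide (g.1 < 13) := (congrArg ED.b he).symm
  have hal : (ed g Q).al = (ed f P).al := by rw [he]; rfl
  have hbe : (ed g Q).be = (ed f P).be := by rw [he]; rfl
  have hp : (ed g Q).p = (ed f P).p := by rw [he]; rfl
  have hT : (ed g Q).T = (ed f P).T + e * (ed f P).w := by rw [he]; rfl
  have hl := lab_eq hal hbe hp
  have hlv := lv_eq hP hQ hf hg hl
  have hw : (ed g Q).w = (ed f P).w := by
    rw [w_lab, w_lab, hb, hl 4 (by omega), hl 5 (by omega), hl 6 (by omega)]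
  rcases can_w hP hf with ⟨f1, f2⟩ | ⟨f1, f2⟩
  · have g1 : 0 < Q (vS g) := by
      rcases can_w hQ hg with ⟨h, -⟩ | ⟨-, h⟩
      · exact h
      · rw [hw] at h; exact absurd h f2.ne'
    have a4 := lab_nonneg f hP 4
    have a5 := lab_nonneg f hP 5
    have a6 := lab_nonneg f hP 6
    -- bounds
    have tf0 := T_lo f P
    have tf1 := T_hi f P
    have tg0 := T_lo g Q
    have tg1 := T_hi g Q
    rw [hl 4 (by omega), hl 5 (by omega), hl 6 (by omega)] at tg0 tg1
    have nonneg : ∀ (h : Fin 24) (R : Fin 5 → ℝ), Sim R → 0 ≤ (ed h R).T := by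
      intro h R hR
      rw [ed_T]
      refine Finset.sum_nonneg fun s _ => mul_nonneg ?_ (hR.1 s)
      positivity
    have tf2 := nonneg f P hP
    have tg2 := nonneg g Q hQ
    have hwl := w_lab f P
    have tf3 : (ed f P).T < (ed f P).w := by
      obtain ⟨b4, b5, b6⟩ := tab_HHw f
      have c4 : (HH f 4 : ℝ) ≤ nvZ (decide (f.1 < 13)) 4 := by exact_mod_cast b4
      have c5 : (HH f 5 : ℝ) ≤ nvZ (decide (f.1 < 13)) 5 := by exact_mod_cast b5
      have c6 : (HH f 6 : ℝ) ≤ nvZ (decide (f.1 < 13)) 6 := by exact_mod_cast b6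
      have := mul_le_mul_of_nonneg_right c4 a4
      have := mul_le_mul_of_nonneg_right c5 a5
      have := mul_le_mul_of_nonneg_right c6 a6
      linarith
    have tg3 : (ed g Q).T < (ed f P).w := by
      obtain ⟨b4, b5, b6⟩ := tab_HHw g
      have c4 : (HH g 4 : ℝ) ≤ nvZ (decide (f.1 < 13)) 4 := by rw [hb]; exact_mod_cast b4
      have c5 : (HH g 5 : ℝ) ≤ nvZ (decide (f.1 < 13)) 5 := by rw [hb]; exact_mod_cast b5
      have c6 : (HH g 6 : ℝ) ≤ nvZ (decide (f.1 < 13)) 6 := by rw [hb]; exact_mod_cast b6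
      have := mul_le_mul_of_nonneg_right c4 a4
      have := mul_le_mul_of_nonneg_right c5 a5
      have := mul_le_mul_of_nonneg_right c6 a6
      linarith
    have he0 : e = 0 := by
      by_contra hne
      rcases lt_or_gt_of_ne hne with h | h
      · have : (e : ℝ) ≤ -1 := by exact_mod_cast (by omega : e ≤ -1)
        nlinarith
      · have : (1 : ℝ) ≤ e := by exact_mod_cast (by omega : 1 ≤ e)
        nlinarith
    have hT' : (ed g Q).T = (ed f P).T := by rw [hT, he0]; simp
    have hfg : f = g := by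
      rcases lt_trichotomy f g with h | h | h
      · exfalso
        obtain ⟨b4, b5, b6⟩ := tab_lt f g h hlv hb
        have c4 : (HH f 4 : ℝ) ≤ LL g 4 := by exact_mod_cast b4
        have c5 : (HH f 5 : ℝ) ≤ LL g 5 := by exact_mod_cast b5
        have c6 : (HH f 6 : ℝ) ≤ LL g 6 := by exact_mod_cast b6
        have := mul_le_mul_of_nonneg_right c4 a4
        have := mul_le_mul_of_nonneg_right c5 a5
        have := mul_le_mul_of_nonneg_right c6 a6
        have := hQ.1 (uS g)
        linarith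
      · exact h
      · exfalso
        obtain ⟨b4, b5, b6⟩ := tab_lt g f h hlv.symm hb.symm
        have c4 : (HH g 4 : ℝ) ≤ LL f 4 := by exact_mod_cast b4
        have c5 : (HH g 5 : ℝ) ≤ LL f 5 := by exact_mod_cast b5
        have c6 : (HH g 6 : ℝ) ≤ LL f 6 := by exact_mod_cast b6
        have := mul_le_mul_of_nonneg_right c4 a4
        have := mul_le_mul_of_nonneg_right c5 a5
        have := mul_le_mul_of_nonneg_right c6 a6
        have := hP.1 (uS f)
        linarith
    subst hfg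
    refine ⟨rfl, ed_inj (f := f) ?_, Or.inl he0⟩
    rw [he, he0, shD_zero]
  · have g1 : fst g = true := by
      rcases can_w hQ hg with ⟨-, h⟩ | ⟨h, -⟩
      · rw [hw] at h; exact absurd f2 h.ne'
      · exact h
    have hfg := tab_fst f g f1 g1 hlv hb
    subst hfg
    refine ⟨rfl, ed_inj (f := f) ?_, Or.inr f2⟩
    rw [he]
    unfold shD
    rw [f2, mul_zero, add_zero]

end Pool.Agent.H21.G1
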